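import Pool.Agent.W601.SQ.Stm

set_option autoImplicit false
open scoped Classical Cardinal
open Filter Topology

namespace Pool.Agent.W601.SQ

noncomputable section

namespace MATX

lemma ip_add {ι : Type} (m m' : ι →₀ ℤ) (y : ι → ℝ) : ip (m + m') y = ip m y + ip m' y := by
  unfold ip
  rw [Finsupp.sum_add_index']
  · intro i; simp
  · intro i a b; push_cast; ring

lemma ip_sub {ι : Type} (m m' : ι →₀ ℤ) (y : ι → ℝ) : ip (m - m') y = ip m y - ip m' y := by
  have h := ip_add (m - m') m' y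
  rw [sub_add_cancel] at h
  linarith

lemma ip_single {ι : Type} (i : ι) (a : ℤ) (y : ι → ℝ) :
    ip (Finsupp.single i a) y = (a : ℝ) * y i := by
  unfold ip
  rw [Finsupp.sum_single_index]
  simp

lemma ip_mapDomain {ι κ : Type} (f : ι → κ) (m : ι →₀ ℤ) (y : κ → ℝ) :
    ip (m.mapDomain f) y = ip m (fun i => y (f i)) := by
  unfold ip
  rw [Finsupp.sum_mapDomain_index]
  · intro i; simp
  · intro i a b; push_cast; ring

lemma ip_congr {ι : Type} (m : ι →₀ ℤ) (y y' : ι → ℝ) (h : ∀ i ∈ m.support, y i = y' i) :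
    ip m y = ip m y' := by
  unfold ip
  apply Finsupp.sum_congr
  intro i hi
  rw [h i hi]

lemma card_C (ι : Type) (h : #ι ≤ 𝔠) : #(Option ι × (ℕ → ℝ × ℝ)) ≤ 𝔠 := by
  have h1 : #(Option ι) ≤ 𝔠 := by
    rw [Cardinal.mk_option]
    calc #ι + 1 ≤ 𝔠 + 𝔠 := add_le_add h (Cardinal.nat_lt_continuum 1 |>.le |> fun h => by simpa using h)
      _ = 𝔠 := Cardinal.continuum_add_self
  have h2 : #(ℕ → ℝ × ℝ) ≤ 𝔠 := by
    have e : #(ℕ → ℝ × ℝ) = #(ℝ × ℝ) ^ #ℕ := by
      rw [Cardinal.power_def]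
    have e2 : #(ℝ × ℝ) = 𝔠 := by
      simp only [Cardinal.mk_prod, Cardinal.lift_id, Cardinal.mk_real,
        Cardinal.continuum_mul_self]
    rw [e, e2, Cardinal.mk_nat, Cardinal.continuum_power_aleph0]
  rw [Cardinal.mk_prod, Cardinal.lift_id, Cardinal.lift_id]
  calc #(Option ι) * #(ℕ → ℝ × ℝ) ≤ 𝔠 * 𝔠 := mul_le_mul' h1 h2
    _ = 𝔠 := Cardinal.continuum_mul_self

lemma card_I : #((ℝ × ℝ) ⊕ ℝ) ≤ 𝔠 := by
  rw [Cardinal.mk_sum, Cardinal.mk_prod]
  simp only [Cardinal.lift_id, Cardinal.mk_real, Cardinal.continuum_mul_self,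
    Cardinal.continuum_add_self, le_refl]

/-- the coded partial function -/
def pf (c : ℕ → ℝ × ℝ) (α : ℝ) : ℝ := if h : ∃ n, (c n).1 = α then (c (Nat.find h)).2 else 0

lemma pf_spec (e : ℕ → ℝ) (f : ℝ → ℝ) (α : ℝ) (h : ∃ n, e n = α) :
    pf (fun n => (e n, f (e n))) α = f α := by
  unfold pf
  have h' : ∃ n, ((fun n => (e n, f (e n))) n).1 = α := h
  rw [dif_pos h']
  have := Nat.find_spec h'
  show f (e (Nat.find h')) = f α
  exact congrArg f this

end MATX

open MATX

theorem mat : S_TI → S_IDX → S_MAT := by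
  intro hTI hIDX ι Y hι hY hcnt
  obtain ⟨Ω, inst, lev, code, hub, hsur⟩ := hIDX (Option ι × (ℕ → ℝ × ℝ)) (card_C ι hι)
    ⟨(none, fun _ => (0, 0))⟩
  set exc : ℝ → ℝ → Prop := fun α β => lev α < lev β ∧ ∃ n, ((code β).2 n).1 = α with hexc
  set Z : (ℝ × ℝ) ⊕ ℝ → Set ℝ := Sum.elim
    (fun p => if lev p.2 < lev p.1 then ((code p.1).1.elim Set.univ (fun i => Y i p.2))
      else Set.univ) (fun _ => Set.univ) with hZ
  have hreal : 𝔠 ≤ #(Set.univ : Set ℝ) := by
    rw [Cardinal.mk_univ, Cardinal.mk_real]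
  have hZc : ∀ i, 𝔠 ≤ #(Z i) := by
    rintro (p | z)
    · show 𝔠 ≤ #(↥(if lev p.2 < lev p.1 then ((code p.1).1.elim Set.univ (fun i => Y i p.2))
        else Set.univ))
      split_ifs
      · cases h : (code p.1).1 with
        | none => exact hreal
        | some i => exact hY i p.2
      · exact hreal
    · exact hreal
  obtain ⟨t, htZ, hti⟩ := hTI ((ℝ × ℝ) ⊕ ℝ) Z card_I hZc
  set θ : ℝ → ℝ → ℝ := fun α β => if exc α β then pf (code β).2 α else t (Sum.inl (α, β)) with hθ
  have hθn : ∀ α β, ¬ exc α β → θ α β = t (Sum.inl (α, β)) := fun α β h => if_neg h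
  have hθe : ∀ α β, exc α β → θ α β = pf (code β).2 α := fun α β h => if_pos h
  have hE : ∀ β, {α | exc α β}.Countable := by
    intro β
    refine (Set.countable_range (fun n => ((code β).2 n).1)).mono ?_
    rintro α ⟨_, n, hn⟩
    exact ⟨n, hn⟩
  refine ⟨θ, ?_, ?_, ⟨fun β => {α | exc α β}, hE, ?_⟩, ?_⟩
  · intro i
    obtain ⟨b, hb⟩ := hub (lev '' {β | Y i β ≠ Set.univ}) ((hcnt i).image lev)
    obtain ⟨α, hα1, hα2⟩ := hsur b (some i, fun _ => (0, 0))
    refine ⟨α, fun β => ?_⟩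
    by_cases hβ : Y i β = Set.univ
    · rw [hβ]; exact Set.mem_univ _
    · have h1 : lev β < lev α := by
        rw [hα1]
        exact hb _ ⟨β, hβ, rfl⟩
      have h2 : ¬ exc α β := fun h => absurd h.1 (not_lt.2 h1.le)
      rw [hθn α β h2]
      have h3 := htZ (Sum.inl (α, β))
      have h4 : Z (Sum.inl (α, β)) = Y i β := by
        show (if lev β < lev α then ((code α).1.elim Set.univ (fun i => Y i β))
          else Set.univ) = Y i β
        rw [if_pos h1, hα2]
        rfl
      rw [h4] at h3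
      exact h3
  · intro A f hA
    rcases A.eq_empty_or_nonempty with h0 | h0
    · exact ⟨0, fun α hα => by rw [h0] at hα; exact absurd hα (Set.notMem_empty α)⟩
    · obtain ⟨e, he⟩ := hA.exists_eq_range h0
      obtain ⟨b, hb⟩ := hub (lev '' A) (hA.image lev)
      obtain ⟨β, hβ1, hβ2⟩ := hsur b (none, fun n => (e n, f (e n)))
      refine ⟨β, fun α hα => ?_⟩
      have h1 : ∃ n, e n = α := by rw [he] at hα; exact hα
      have h2 : exc α β := by
        refine ⟨?_, ?_⟩
        · rw [hβ1]; exact hb _ ⟨α, hα, rfl⟩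
        · rw [hβ2]; exact h1
      rw [hθe α β h2, hβ2]
      exact pf_spec e f α h1
  · intro m n hm hip
    have h1 : ip (m.mapDomain (Sum.inl : ℝ × ℝ → (ℝ × ℝ) ⊕ ℝ)) t = n := by
      rw [ip_mapDomain, ← hip]
      apply ip_congr
      intro p hp
      exact (hθn p.1 p.2 (hm p hp)).symm
    have h2 := hti _ n h1
    exact Finsupp.mapDomain_injective Sum.inl_injective (by rw [h2, Finsupp.mapDomain_zero])
  · intro β
    by_contra hcon
    push Not at hcon
    choose m n hmn using fun γ : ℝ => hcon (t (Sum.inr γ))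
    have : Countable {α // exc α β} := (hE β).to_subtype
    have hninj : ¬ Function.Injective (fun γ : ℝ =>
        (((m γ).subtypeDomain (fun α => exc α β), n γ) : ({α // exc α β} →₀ ℤ) × ℤ)) := by
      intro hinj
      have := hinj.countable
      exact Cardinal.not_countable_real (Set.countable_univ_iff.2 this)
    rw [Function.not_injective_iff] at hninj
    obtain ⟨γ, γ', heq, hne⟩ := hninj
    rw [Prod.mk.injEq] at heq
    obtain ⟨heq1, heq2⟩ := heq
    set d : ℝ →₀ ℤ := m γ - m γ' with hd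
    have hd0 : ∀ α ∈ d.support, ¬ exc α β := by
      intro α hα hex
      rw [Finsupp.mem_support_iff] at hα
      apply hα
      have := DFunLike.congr_fun heq1 ⟨α, hex⟩
      rw [Finsupp.subtypeDomain_apply, Finsupp.subtypeDomain_apply] at this
      rw [hd, Finsupp.sub_apply]
      show m γ α - m γ' α = 0
      exact sub_eq_zero.2 this
    have h1 : ip d (fun α => θ α β) = t (Sum.inr γ) - t (Sum.inr γ') := by
      rw [hd, ip_sub]
      have e1 := hmn γ
      have e2 := hmn γ'
      rw [heq2] at e1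
      linarith
    have h2 : ip (d.mapDomain (fun α => (Sum.inl (α, β) : (ℝ × ℝ) ⊕ ℝ))) t
        = ip d (fun α => θ α β) := by
      rw [ip_mapDomain]
      apply ip_congr
      intro α hα
      exact (hθn α β (hd0 α hα)).symm
    have h3 := hti (d.mapDomain (fun α => (Sum.inl (α, β) : (ℝ × ℝ) ⊕ ℝ))
      - Finsupp.single (Sum.inr γ) 1 + Finsupp.single (Sum.inr γ') 1) 0 (by
        rw [ip_add, ip_sub, ip_single, ip_single, h2, h1]
        push_cast
        ring)
    have h4 := DFunLike.congr_fun h3 (Sum.inr γ)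
    rw [Finsupp.add_apply, Finsupp.sub_apply, Finsupp.single_eq_same,
      Finsupp.single_eq_of_ne (by intro h; exact hne (Sum.inr_injective h)),
      Finsupp.mapDomain_of_notMem_range _ _ (by rintro ⟨α, hα⟩; exact absurd hα (by simp))] at h4
    simp at h4

end

end Pool.Agent.W601.SQ

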